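import Mathlib

/-!
Traces of powers of a diagonal matrix minus a nonnegative matrix.
-/

namespace Pool.Agent.FS.LogThreshold

open Matrix Polynomial Filter Topology

variable {n : ℕ}

lemma pow_nonneg' {B : Matrix (Fin n) (Fin n) ℝ} (h : ∀ i j, 0 ≤ B i j) (m : ℕ) :
    ∀ i j, 0 ≤ (B ^ m) i j := by
  induction m with
  | zero =>
    intro i j
    rw [pow_zero, Matrix.one_apply]
    split_ifs <;> norm_num
  | succ m ih =>
    intro i j
    rw [pow_succ, Matrix.mul_apply]
    exact Finset.sum_nonneg fun l _ => mul_nonneg (ih i l) (h l j)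

lemma pow_mono' {B C : Matrix (Fin n) (Fin n) ℝ} (h : ∀ i j, 0 ≤ B i j)
    (hle : ∀ i j, B i j ≤ C i j) (m : ℕ) : ∀ i j, (B ^ m) i j ≤ (C ^ m) i j := by
  induction m with
  | zero => intro i j; rw [pow_zero, pow_zero]
  | succ m ih =>
    intro i j
    rw [pow_succ, pow_succ, Matrix.mul_apply, Matrix.mul_apply]
    exact Finset.sum_le_sum fun l _ => mul_le_mul (ih i l) (hle l j) (h l j)
      (pow_nonneg' (fun a b => (h a b).trans (hle a b)) m i l)

lemma row_pow {Q : Matrix (Fin n) (Fin n) ℝ} {q : ℝ} (h : ∀ i, ∑ j, Q i j = q) (m : ℕ) :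
    ∀ i, ∑ j, (Q ^ m) i j = q ^ m := by
  induction m with
  | zero => intro i; simp [Matrix.one_apply]
  | succ m ih =>
    intro i
    simp only [pow_succ, Matrix.mul_apply]
    rw [Finset.sum_comm]
    simp only [← Finset.mul_sum, h]
    rw [← Finset.sum_mul, ih]

/-- the words that contain `P` are dominated by the same words with all signs positive -/
lemma diff_le {D P : Matrix (Fin n) (Fin n) ℝ} (hD : ∀ i j, 0 ≤ D i j) (hP : ∀ i j, 0 ≤ P i j)
    (m : ℕ) : ∀ i j, |((D - P) ^ m - D ^ m) i j| ≤ ((D + P) ^ m - D ^ m) i j := by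
  induction m with
  | zero => intro i j; simp
  | succ m ih =>
    intro i j
    have e1 : (D - P) ^ (m + 1) - D ^ (m + 1) = ((D - P) ^ m - D ^ m) * (D - P) - D ^ m * P := by
      rw [pow_succ, pow_succ]; noncomm_ring
    have e2 : (D + P) ^ (m + 1) - D ^ (m + 1) = ((D + P) ^ m - D ^ m) * (D + P) + D ^ m * P := by
      rw [pow_succ, pow_succ]; noncomm_ring
    have h3 : 0 ≤ (D ^ m * P) i j := by
      rw [Matrix.mul_apply]
      exact Finset.sum_nonneg fun l _ => mul_nonneg (pow_nonneg' hD m i l) (hP l j)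
    rw [e1, e2, Matrix.sub_apply, Matrix.add_apply]
    refine (abs_sub _ _).trans (add_le_add ?_ (abs_of_nonneg h3).le)
    rw [Matrix.mul_apply, Matrix.mul_apply]
    refine (Finset.abs_sum_le_sum_abs _ _).trans (Finset.sum_le_sum fun l _ => ?_)
    rw [abs_mul]
    refine mul_le_mul (ih i l) ?_ (abs_nonneg _) ((abs_nonneg _).trans (ih i l))
    rw [Matrix.sub_apply, Matrix.add_apply]
    exact abs_le.mpr ⟨by linarith [hD l j, hP l j], by linarith [hD l j, hP l j]⟩

lemma conv (a m u x : ℝ) (ha : 0 ≤ a) :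
    (a + 1) * Real.exp (m * ((a * u + x) / (a + 1))) ≤
      a * Real.exp (m * u) + Real.exp (m * x) := by
  have h1 : 0 < a + 1 := by linarith
  have h := convexOn_exp.2 (Set.mem_univ (m * u)) (Set.mem_univ (m * x))
    (show 0 ≤ a / (a + 1) by positivity) (show 0 ≤ 1 / (a + 1) by positivity) (by field_simp)
  simp only [smul_eq_mul] at h
  have e : m * ((a * u + x) / (a + 1)) = a / (a + 1) * (m * u) + 1 / (a + 1) * (m * x) := by
    field_simp
  rw [e]
  refine (mul_le_mul_of_nonneg_left h h1.le).trans (le_of_eq ?_)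
  field_simp

/-- the inequality of arithmetic and geometric means along walks -/
lemma walk {Q : Matrix (Fin n) (Fin n) ℝ} (hQ : ∀ i j, 0 ≤ Q i j) (x : Fin n → ℝ) (m k : ℕ) :
    ∃ S : Matrix (Fin n) (Fin n) ℝ,
      (∀ l : ℕ, (S * Q ^ l).trace =
        k * (diagonal (fun j => Real.exp (m * x j)) * Q ^ (k + l)).trace) ∧
      ∀ (a : ℕ) (u : ℝ) (i j : Fin n), a + k = m →
        m * Real.exp (a * u) * ((diagonal (fun j => Real.exp (x j)) * Q) ^ k) i j ≤
          a * Real.exp (m * u) * (Q ^ k) i j + S i j := by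
  induction k with
  | zero =>
    refine ⟨0, fun l => by simp, fun a u i j h => ?_⟩
    rw [add_zero] at h
    rw [h, pow_zero, pow_zero, Matrix.zero_apply, add_zero]
  | succ k ih =>
    obtain ⟨S, h1, h2⟩ := ih
    refine ⟨diagonal (fun j => Real.exp (m * x j)) * Q ^ (k + 1) + Q * S, fun l => ?_,
      fun a u i j h => ?_⟩
    · rw [add_mul, trace_add, mul_assoc, ← pow_add, mul_assoc, trace_mul_comm Q, mul_assoc,
        ← pow_succ, h1, show k + (l + 1) = k + 1 + l by ring]
      push_cast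
      ring
    · have ha : (0 : ℝ) ≤ a := Nat.cast_nonneg a
      set u' := (a * u + x i) / (a + 1) with hu'
      have e1 : Real.exp (a * u) * Real.exp (x i) = Real.exp ((a + 1 : ℕ) * u') := by
        rw [← Real.exp_add, hu']
        congr 1
        push_cast
        field_simp
      have h3 : ∑ l, Q i l * (m * Real.exp ((a + 1 : ℕ) * u') *
            ((diagonal (fun j => Real.exp (x j)) * Q) ^ k) l j) ≤
          ∑ l, Q i l * ((a + 1 : ℕ) * Real.exp (m * u') * (Q ^ k) l j + S l j) :=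
        Finset.sum_le_sum fun l _ =>
          mul_le_mul_of_nonneg_left (h2 (a + 1) u' l j (by omega)) (hQ i l)
      have e2 : m * Real.exp (a * u) * ((diagonal (fun j => Real.exp (x j)) * Q) ^ (k + 1)) i j =
          ∑ l, Q i l * (m * Real.exp ((a + 1 : ℕ) * u') *
            ((diagonal (fun j => Real.exp (x j)) * Q) ^ k) l j) := by
        rw [pow_succ', mul_assoc (diagonal _), diagonal_mul, Matrix.mul_apply, ← e1,
          Finset.mul_sum, Finset.mul_sum]
        exact Finset.sum_congr rfl fun l _ => by ring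
      have e3 : ∑ l, Q i l * ((a + 1 : ℕ) * Real.exp (m * u') * (Q ^ k) l j + S l j) =
          (a + 1) * Real.exp (m * u') * (Q ^ (k + 1)) i j + (Q * S) i j := by
        rw [pow_succ', Matrix.mul_apply, Matrix.mul_apply, Finset.mul_sum,
          ← Finset.sum_add_distrib]
        push_cast
        exact Finset.sum_congr rfl fun l _ => by ring
      have h4 := mul_le_mul_of_nonneg_right (conv a m u (x i) ha) (pow_nonneg' hQ (k + 1) i j)
      rw [e2, Matrix.add_apply, diagonal_mul]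
      rw [e3] at h3
      rw [← hu'] at h4
      linarith

lemma trace_walk {Q : Matrix (Fin n) (Fin n) ℝ} (hQ : ∀ i j, 0 ≤ Q i j) {q : ℝ}
    (h : ∀ i, ∑ j, Q i j = q) (x : Fin n → ℝ) {m : ℕ} (hm : 0 < m) :
    ((diagonal (fun j => Real.exp (x j)) * Q) ^ m).trace ≤ q ^ m * ∑ j, Real.exp (m * x j) := by
  obtain ⟨S, h1, h2⟩ := walk hQ x m m
  have hm' : (0 : ℝ) < m := Nat.cast_pos.mpr hm
  have h3 : m * ((diagonal (fun j => Real.exp (x j)) * Q) ^ m).trace ≤ S.trace := by
    rw [Matrix.trace, Matrix.trace, Finset.mul_sum]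
    refine Finset.sum_le_sum fun i _ => ?_
    simpa using h2 0 0 i i (zero_add m)
  have h4 := h1 0
  rw [pow_zero, mul_one, add_zero] at h4
  rw [h4] at h3
  refine (le_of_mul_le_mul_left h3 hm').trans ?_
  rw [Matrix.trace, Finset.mul_sum]
  refine Finset.sum_le_sum fun i _ => ?_
  rw [Matrix.diag_apply, diagonal_mul, mul_comm, ← row_pow h m i]
  exact mul_le_mul_of_nonneg_right
    (Finset.single_le_sum (fun j _ => pow_nonneg' hQ m i j) (Finset.mem_univ i))
    (Real.exp_pos _).le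

/-- the trace of a power is bounded through the eigenvalues -/
lemma trace_le (i : Fin n) (M : Matrix (Fin n) (Fin n) ℝ) {r α τ : ℝ} (hα : 0 ≤ α) (hτ : 0 ≤ τ)
    (hr : ∀ μ ∈ spectrum ℂ (M.map (fun x : ℝ => (x : ℂ))), ‖μ‖ ≤ r) (m : ℕ) :
    ((α • (1 : Matrix (Fin n) (Fin n) ℝ) - τ • M) ^ m).trace ≤ n * (α + τ * r) ^ m := by
  have : Nonempty (Fin n) := ⟨i⟩
  set M' : Matrix (Fin n) (Fin n) ℂ := M.map (fun x : ℝ => (x : ℂ)) with hM'
  set p : ℂ[X] := (C (α : ℂ) - C (τ : ℂ) * X) ^ m with hp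
  have e1 : ((α • (1 : Matrix (Fin n) (Fin n) ℝ) - τ • M) ^ m).map Complex.ofRealHom =
      aeval M' p := by
    rw [hp, map_pow, ← RingHom.mapMatrix_apply, map_pow]
    congr 1
    rw [map_sub (aeval (R := ℂ) M'), map_mul, aeval_C, aeval_C, aeval_X, Algebra.algebraMap_eq_smul_one,
      Algebra.algebraMap_eq_smul_one, smul_mul_assoc, one_mul]
    ext a b
    by_cases hab : a = b <;> simp [hM', hab]
  have hs := spectrum.map_polynomial_aeval_of_nonempty M' p
    (spectrum.nonempty_of_isAlgClosed_of_finiteDimensional ℂ M')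
  have hb : ∀ ν ∈ (aeval M' p).charpoly.roots, ‖ν‖ ≤ (α + τ * r) ^ m := by
    intro ν hν
    have h1 : ν ∈ spectrum ℂ (aeval M' p) :=
      Matrix.mem_spectrum_iff_isRoot_charpoly.mpr (isRoot_of_mem_roots hν)
    rw [hs] at h1
    obtain ⟨μ, hμ, rfl⟩ := h1
    simp only [hp, eval_pow, eval_sub, eval_mul, eval_C, eval_X, norm_pow]
    refine pow_le_pow_left₀ (norm_nonneg _) ((norm_sub_le _ _).trans ?_) m
    rw [norm_mul, Complex.norm_real, Complex.norm_real, Real.norm_of_nonneg hα,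
      Real.norm_of_nonneg hτ]
    exact add_le_add le_rfl (mul_le_mul_of_nonneg_left (hr μ hμ) hτ)
  have hc : Multiset.card (aeval M' p).charpoly.roots = n := by
    rw [IsAlgClosed.card_roots_eq_natDegree, Matrix.charpoly_natDegree_eq_dim, Fintype.card_fin]
  have h2 : ‖(aeval M' p).trace‖ ≤ n * (α + τ * r) ^ m := by
    rw [Matrix.trace_eq_sum_roots_charpoly]
    refine (norm_multiset_sum_le _).trans ?_
    have := Multiset.sum_le_card_nsmul ((aeval M' p).charpoly.roots.map fun x => ‖x‖)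
      ((α + τ * r) ^ m) (fun y hy => by
        obtain ⟨ν, hν, rfl⟩ := Multiset.mem_map.mp hy
        exact hb ν hν)
    rwa [Multiset.card_map, hc, nsmul_eq_mul] at this
  rw [← e1, ← AddMonoidHom.map_trace, Complex.ofRealHom_eq_coe, Complex.norm_real] at h2
  exact (le_abs_self _).trans h2

lemma one_add_pow_le {y : ℝ} (hy : 0 ≤ y) {m : ℕ} (hm : 0 < m) :
    (1 + y / m) ^ m ≤ Real.exp y := by
  have hm' : (0 : ℝ) < m := Nat.cast_pos.mpr hm
  calc (1 + y / m) ^ m ≤ Real.exp (y / m) ^ m :=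
        pow_le_pow_left₀ (by positivity) (by linarith [Real.add_one_le_exp (y / m)]) m
    _ = Real.exp y := by
        rw [← Real.exp_nat_mul]
        congr 1
        field_simp

lemma finite_step (i : Fin n) (A : Matrix (Fin n) (Fin n) ℝ) (e : Fin n → ℝ)
    (h0 : ∀ i j, 0 ≤ A i j) (h1 : ∀ i, ∑ j, A i j = 1) {r s t : ℝ} (hr0 : 0 ≤ r) (hs : 0 ≤ s)
    (ht : 0 ≤ t) (hy : ∀ j, 0 ≤ s + t * e j)
    (hr : ∀ μ ∈ spectrum ℂ ((A - diagonal e).map (fun x : ℝ => (x : ℂ))), ‖μ‖ ≤ r) {m : ℕ}
    (hm : 0 < m) :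
    2 * ∑ j, (1 + (s + t * e j) / m) ^ m ≤
      Real.exp t * ∑ j, Real.exp (s + t * e j) + n * Real.exp (s + t * r) := by
  have hm' : (0 : ℝ) < m := Nat.cast_pos.mpr hm
  set D : Matrix (Fin n) (Fin n) ℝ := diagonal fun j => 1 + (s + t * e j) / m with hD
  set P : Matrix (Fin n) (Fin n) ℝ := (t / m) • A with hP
  have hd : ∀ j, 0 ≤ (s + t * e j) / m := fun j => div_nonneg (hy j) hm'.le
  have hD0 : ∀ a b, 0 ≤ D a b := fun a b => by
    rw [hD, diagonal_apply]
    split_ifs
    · linarith [hd a]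
    · exact le_rfl
  have hP0 : ∀ a b, 0 ≤ P a b := fun a b => mul_nonneg (by positivity) (h0 a b)
  have e1 : D - P = (1 + s / m) • (1 : Matrix (Fin n) (Fin n) ℝ) - (t / m) • (A - diagonal e) := by
    ext a b
    by_cases hab : a = b
    · subst hab
      simp [hD, hP]
      ring
    · simp [hD, hP, hab]
  have k1 := trace_le i (A - diagonal e) (α := 1 + s / m) (τ := t / m) (by positivity)
    (by positivity) hr m
  rw [← e1, show 1 + s / m + t / m * r = 1 + (s + t * r) / m by ring] at k1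
  have k2 := mul_le_mul_of_nonneg_left (one_add_pow_le (y := s + t * r) (by positivity) hm)
    (Nat.cast_nonneg (α := ℝ) n)
  have hQ0 : ∀ a b, 0 ≤ (1 + P) a b := fun a b => by
    rw [Matrix.add_apply, Matrix.one_apply]
    split_ifs <;> linarith [hP0 a b]
  have hQ1 : ∀ a, ∑ b, (1 + P) a b = 1 + t / m := fun a => by
    simp only [Matrix.add_apply, Finset.sum_add_distrib, hP, Matrix.smul_apply, smul_eq_mul,
      ← Finset.mul_sum, h1, mul_one]
    simp [Matrix.one_apply]
  have k3 := trace_walk hQ0 hQ1 (fun j => (s + t * e j) / m) hm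
  have e2 : ∀ j, (m : ℝ) * ((s + t * e j) / m) = s + t * e j := fun j => by field_simp
  simp only [e2] at k3
  have k4 : ((D + P) ^ m).trace ≤
      ((diagonal (fun j => Real.exp ((s + t * e j) / m)) * (1 + P)) ^ m).trace := by
    refine Finset.sum_le_sum fun a _ => pow_mono' (fun a b => add_nonneg (hD0 a b) (hP0 a b))
      (fun a b => ?_) m a a
    have h5 := Real.add_one_le_exp ((s + t * e a) / m)
    have h6 := mul_le_mul_of_nonneg_right (show 1 ≤ Real.exp ((s + t * e a) / m) by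
      linarith [hd a]) (hP0 a b)
    change D a b + P a b ≤ _
    rw [diagonal_mul, Matrix.add_apply, hD, diagonal_apply, Matrix.one_apply]
    split_ifs <;> linarith
  have k5 := mul_le_mul_of_nonneg_right (one_add_pow_le ht hm)
    (Finset.sum_nonneg fun j (_ : j ∈ Finset.univ) => (Real.exp_pos (s + t * e j)).le)
  have k6 : (D ^ m).trace - ((D - P) ^ m).trace ≤ ((D + P) ^ m).trace - (D ^ m).trace := by
    rw [← trace_sub, ← trace_sub]
    refine Finset.sum_le_sum fun a _ => ?_
    have := (abs_le.mp (diff_le hD0 hP0 m a a)).1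
    simp only [Matrix.diag_apply, Matrix.sub_apply] at this ⊢
    linarith
  have k7 : (D ^ m).trace = ∑ j, (1 + (s + t * e j) / m) ^ m := by
    rw [hD, diagonal_pow, trace_diagonal]
    rfl
  linarith

theorem main (A : Matrix (Fin n) (Fin n) ℝ) (e : Fin n → ℝ) (h0 : ∀ i j, 0 ≤ A i j)
    (h1 : ∀ i, ∑ j, A i j = 1) (i : Fin n) {r t : ℝ} (hr0 : 0 ≤ r) (ht : 0 < t)
    (ht2 : t < Real.log 2)
    (hr : ∀ μ ∈ spectrum ℂ ((A - diagonal e).map (fun x : ℝ => (x : ℂ))), ‖μ‖ ≤ r) :
    e i - (Real.log n - Real.log (2 - Real.exp t)) / t ≤ r := by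
  set s := t * ∑ j, |e j| with hs
  have hs0 : 0 ≤ s := mul_nonneg ht.le (Finset.sum_nonneg fun j _ => abs_nonneg _)
  have hy : ∀ j, 0 ≤ s + t * e j := fun j => by
    have := Finset.single_le_sum (f := fun j => |e j|) (fun j _ => abs_nonneg _)
      (Finset.mem_univ j)
    rw [hs, ← mul_add]
    exact mul_nonneg ht.le (by linarith [neg_abs_le (e j)])
  have hl : Tendsto (fun m : ℕ => 2 * ∑ j, (1 + (s + t * e j) / m) ^ m) atTop
      (𝓝 (2 * ∑ j, Real.exp (s + t * e j))) :=
    (tendsto_finsetSum _ fun j _ => Real.tendsto_one_add_div_pow_exp _).const_mul 2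
  have k1 := le_of_tendsto hl ((eventually_gt_atTop 0).mono fun m hm =>
    finite_step i A e h0 h1 hr0 hs0 ht.le hy hr hm)
  have h2 : 0 < 2 - Real.exp t := by
    have := Real.exp_lt_exp.mpr ht2
    rw [Real.exp_log two_pos] at this
    linarith
  have k2 := mul_le_mul_of_nonneg_left (Finset.single_le_sum
    (f := fun j => Real.exp (s + t * e j)) (fun j _ => (Real.exp_pos _).le)
    (Finset.mem_univ i)) h2.le
  have hn : (0 : ℝ) < n := Nat.cast_pos.mpr i.pos
  have k3 : (2 - Real.exp t) * Real.exp (s + t * e i) ≤ n * Real.exp (s + t * r) := by linarith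
  have k4 := Real.log_le_log (mul_pos h2 (Real.exp_pos _)) k3
  rw [Real.log_mul h2.ne' (Real.exp_pos _).ne', Real.log_mul hn.ne' (Real.exp_pos _).ne',
    Real.log_exp, Real.log_exp] at k4
  rw [sub_le_iff_le_add, ← sub_le_iff_le_add', le_div_iff₀ ht]
  linarith

end Pool.Agent.FS.LogThreshold
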